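import Pool.Agent.H.MP_ea0cba_gt.Fin

open Set Topology Filter

namespace Pool.Agent.H.MP_3d59a4_gt
open Pool.Agent.H.MP_ea0cba_gt

variable {E : Type} [TopologicalSpace E]

lemma chain_conn [T2Space E] [CompactSpace E] {T : Set (Set E)}
    (hT : ∀ A ∈ T, IsCompact A ∧ IsConnected A) (hch : IsChain (· ⊆ ·) T) (hne : T.Nonempty) :
    IsPreconnected (⋂₀ T) := by
  have hcl : IsClosed (⋂₀ T) := isClosed_sInter fun A hA => (hT A hA).1.isClosed
  rw [isPreconnected_iff_subset_of_fully_disjoint_closed hcl]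
  intro u v hu hv h1 h2
  obtain ⟨U, V, hU, hV, huU, hvV, hUV⟩ := normal_separation hu hv h2
  have := hne.to_subtype
  obtain ⟨A, hA⟩ := ((hU.union hV).isClosed_compl.isCompact).elim_directed_family_closed
    (fun A : T => A.1) (fun A => (hT A.1 A.2).1.isClosed) (by
      rw [← sInter_eq_iInter, eq_empty_iff_forall_notMem]
      rintro z ⟨hz1, hz2⟩
      exact hz1 ((union_subset_union huU hvV) (h1 hz2))) (by
      intro A B
      rcases hch.total A.2 B.2 with h | h
      · exact ⟨A, subset_rfl, h⟩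
      · exact ⟨B, h, subset_rfl⟩)
  have hAUV : A.1 ⊆ U ∪ V := by
    intro z hz
    by_contra h
    exact (eq_empty_iff_forall_notMem.1 hA) z ⟨h, hz⟩
  rcases (hT A.1 A.2).2.2.subset_or_subset hU hV hUV hAUV with h | h
  · left
    intro z hz
    refine (h1 hz).resolve_right fun h' => ?_
    exact disjoint_left.1 hUV (h (hz A.1 A.2)) (hvV h')
  · right
    intro z hz
    refine (h1 hz).resolve_left fun h' => ?_
    exact disjoint_left.1 hUV (huU h') (h (hz A.1 A.2))

lemma dec_of_onto [T2Space E] [CompactSpace E] {Z : Type} [TopologicalSpace Z] [T1Space Z]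
    [Nontrivial Z] {g : E → Z} (hg : Continuous g) {K : Set E} (hK : IsCompact K)
    (hc : IsConnected K) (hd : HD K) (hs : g '' K = univ) : Dec (univ : Set Z) := by
  obtain ⟨L, hLK, hL⟩ := zorn_superset_nonempty
    {L : Set E | IsCompact L ∧ IsConnected L ∧ g '' L = univ} (by
      intro T hT hch hne
      have hcl : IsClosed (⋂₀ T) := isClosed_sInter fun A hA => (hT hA).1.isClosed
      have hsur : g '' (⋂₀ T) = univ := by
        refine eq_univ_of_forall fun z => ?_
        by_contra hz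
        have := hne.to_subtype
        obtain ⟨A, hA⟩ := ((isClosed_singleton (x := z)).preimage hg).isCompact.elim_directed_family_closed
          (fun A : T => A.1) (fun A => (hT A.2).1.isClosed) (by
            rw [← sInter_eq_iInter, eq_empty_iff_forall_notMem]
            rintro w ⟨h1, h2⟩
            exact hz ⟨w, h2, h1⟩) (by
            intro A B
            rcases hch.total A.2 B.2 with h | h
            · exact ⟨A, subset_rfl, h⟩
            · exact ⟨B, h, subset_rfl⟩)
        obtain ⟨w, h1, h2⟩ := (hT A.2).2.2.symm.subset (mem_univ z)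
        exact (eq_empty_iff_forall_notMem.1 hA) w ⟨h2, h1⟩
      refine ⟨⋂₀ T, ⟨hcl.isCompact, ⟨?_, chain_conn (fun A hA => ⟨(hT hA).1, (hT hA).2.1⟩) hch hne⟩,
        hsur⟩, fun A hA => sInter_subset_of_mem hA⟩
      have : (g '' (⋂₀ T)).Nonempty := hsur ▸ univ_nonempty
      exact this.of_image) K ⟨hK, hc, hs⟩
  obtain ⟨A, B, h1, h2, h3, h4, h5, h6, h7, h8, h9⟩ := hd L hLK hL.prop.1 hL.prop.2.1
    (nontrivial_of_image g L (hL.prop.2.2 ▸ nontrivial_univ))
  refine ⟨g '' A, g '' B, subset_univ _, subset_univ _,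
    fun h => h3 (subset_antisymm h1 (hL.le_of_le ⟨h5, h6, h⟩ h1)),
    fun h => h4 (subset_antisymm h2 (hL.le_of_le ⟨h7, h8, h⟩ h2)), h5.image hg,
    h6.image _ hg.continuousOn, h7.image hg, h8.image _ hg.continuousOn, ?_⟩
  rw [← image_union, h9, hL.prop.2.2]

lemma conn_piece [PreconnectedSpace E] {P Q : Set E} (hP : IsClosed P) (hQ : IsClosed Q)
    (hu : P ∪ Q = univ) (hi : IsPreconnected (P ∩ Q)) : IsPreconnected P := by
  have hM := isPreconnected_iff_subset_of_disjoint_closed.1 (isPreconnected_univ (α := E))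
  rw [isPreconnected_iff_subset_of_disjoint_closed] at hi ⊢
  have key : ∀ u v : Set E, IsClosed u → IsClosed v → P ⊆ u ∪ v → P ∩ (u ∩ v) = ∅ →
      P ∩ Q ⊆ u → P ⊆ u ∨ P ⊆ v := by
    intro u v hu' hv h1 h2 h3
    rcases hM ((P ∩ u) ∪ Q) (P ∩ v) ((hP.inter hu').union hQ) (hP.inter hv) (by
      intro x _
      rcases hu.symm.subset (mem_univ x) with h | h
      · rcases h1 h with h' | h'
        · exact Or.inl (Or.inl ⟨h, h'⟩)
        · exact Or.inr ⟨h, h'⟩
      · exact Or.inl (Or.inr h)) (by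
      rw [eq_empty_iff_forall_notMem]
      rintro x ⟨-, h4 | h4, h5⟩
      · exact (eq_empty_iff_forall_notMem.1 h2) x ⟨h5.1, h4.2, h5.2⟩
      · exact (eq_empty_iff_forall_notMem.1 h2) x ⟨h5.1, h3 ⟨h5.1, h4⟩, h5.2⟩) with h | h
    · left
      intro x hx
      rcases h (mem_univ x) with h' | h'
      · exact h'.2
      · exact h3 ⟨hx, h'⟩
    · exact Or.inr fun x _ => (h (mem_univ x)).2
  intro u v hu' hv h1 h2
  rcases hi u v hu' hv (inter_subset_left.trans h1) (by
    rw [eq_empty_iff_forall_notMem] at h2 ⊢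
    exact fun x hx => h2 x ⟨hx.1.1, hx.2⟩) with h | h
  · exact key u v hu' hv h1 h2 h
  · exact (key v u hv hu' (by rwa [union_comm]) (by rwa [inter_comm v]) h).symm

lemma dec_of_interior [T2Space E] [CompactSpace E] [ConnectedSpace E] {A : Set E}
    (hA : IsClosed A) (hc : IsConnected A) (hne : A ≠ univ) (hi : (interior A).Nonempty) :
    Dec (univ : Set E) := by
  by_cases h : IsPreconnected Aᶜ
  · refine ⟨A, closure Aᶜ, subset_univ _, subset_univ _, hne, ?_, hA.isCompact, hc,
      isClosed_closure.isCompact, IsConnected.closure ⟨nonempty_compl.2 hne, h⟩, ?_⟩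
    · rw [closure_compl]
      exact nonempty_compl.1 (by simpa using hi)
    · exact eq_univ_of_forall fun x => (em (x ∈ A)).imp id fun h => subset_closure h
  · unfold IsPreconnected at h
    push Not at h
    obtain ⟨u, v, hu, hv, h1, ⟨x, hx⟩, ⟨y, hy⟩, h4⟩ := h
    have h5 := eq_empty_iff_forall_notMem.1 h4
    have hP : IsClosed (Aᶜ ∩ u)ᶜ := (hA.isOpen_compl.inter hu).isClosed_compl
    have hQ : IsClosed (Aᶜ ∩ v)ᶜ := (hA.isOpen_compl.inter hv).isClosed_compl
    have hun : (Aᶜ ∩ u)ᶜ ∪ (Aᶜ ∩ v)ᶜ = univ := by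
      refine eq_univ_of_forall fun z => ?_
      by_contra hz
      simp only [mem_union, mem_compl_iff, not_or, not_not] at hz
      exact h5 z ⟨hz.1.1, hz.1.2, hz.2.2⟩
    have hin : (Aᶜ ∩ u)ᶜ ∩ (Aᶜ ∩ v)ᶜ = A := by
      ext z
      constructor
      · rintro ⟨h6, h7⟩
        by_contra hz
        rcases h1 hz with h | h
        · exact h6 ⟨hz, h⟩
        · exact h7 ⟨hz, h⟩
      · exact fun hz => ⟨fun h => h.1 hz, fun h => h.1 hz⟩
    obtain ⟨a, ha⟩ := hc.1
    refine ⟨(Aᶜ ∩ u)ᶜ, (Aᶜ ∩ v)ᶜ, subset_univ _, subset_univ _, fun h => ?_, fun h => ?_,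
      hP.isCompact, ⟨⟨a, fun h => h.1 ha⟩, conn_piece hP hQ hun (hin.symm ▸ hc.2)⟩, hQ.isCompact,
      ⟨⟨a, fun h => h.1 ha⟩, conn_piece hQ hP (by rwa [union_comm])
        (by rw [inter_comm, hin]; exact hc.2)⟩, hun⟩
    · exact h.symm.subset (mem_univ x) hx
    · exact h.symm.subset (mem_univ y) hy

lemma exists_pair [T2Space E] [CompactSpace E] [ConnectedSpace E] [SecondCountableTopology E]
    (h : ¬ Dec (univ : Set E)) (p : E) :
    ∃ q, ∀ A : Set E, IsClosed A → IsConnected A → p ∈ A → q ∈ A → A = univ := by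
  let S : Set (Set E) := {U | U ∈ TopologicalSpace.countableBasis E ∧ p ∉ U}
  have hS : S.Countable := (TopologicalSpace.countable_countableBasis E).mono fun U hU => hU.1
  have hcl : ∀ U ∈ S, IsClosed (connectedComponentIn Uᶜ p) := by
    intro U hU
    have h1 : IsClosed Uᶜ := (TopologicalSpace.isOpen_of_mem_countableBasis hU.1).isClosed_compl
    rw [connectedComponentIn_eq_image hU.2]
    exact h1.isClosedEmbedding_subtypeVal.isClosedMap _ isClosed_connectedComponent
  have hd : Dense (⋂ U ∈ S, (connectedComponentIn Uᶜ p)ᶜ) := by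
    refine dense_biInter_of_isOpen (fun U hU => (hcl U hU).isOpen_compl) hS fun U hU => ?_
    rw [← interior_eq_empty_iff_dense_compl, ← not_nonempty_iff_eq_empty]
    intro hi
    refine h (dec_of_interior (hcl U hU) (isConnected_connectedComponentIn_iff.2 hU.2) ?_ hi)
    intro h2
    obtain ⟨x, hx⟩ := TopologicalSpace.nonempty_of_mem_countableBasis hU.1
    exact connectedComponentIn_subset _ _ (h2.symm.subset (mem_univ x)) hx
  have : Nonempty E := ⟨p⟩
  obtain ⟨q, hq⟩ := hd.nonempty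
  refine ⟨q, fun A hA hc hp hqA => ?_⟩
  by_contra hne
  obtain ⟨x, hx⟩ := nonempty_compl.2 hne
  obtain ⟨U, hU, hxU, hUA⟩ := (TopologicalSpace.isBasis_countableBasis E).exists_subset_of_mem_open
    hx hA.isOpen_compl
  have hUS : U ∈ S := ⟨hU, fun h => hUA h hp⟩
  exact mem_iInter₂.1 hq U hUS (hc.2.subset_connectedComponentIn hp (subset_compl_comm.1 hUA) hqA)

instance : CompactSpace Sol := isCompact_iff_compactSpace.1 sol_compact
instance : ConnectedSpace Sol := isConnected_iff_connectedSpace.1 sol_conn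
instance : Nontrivial Sol := by
  refine ⟨⟨1, cs_one.1⟩, ⟨phi (1 / 2), subset_closure ⟨_, rfl⟩⟩, fun h => ?_⟩
  have h10 : (1 : ℂ) = phi (1 / 2) 0 := congrFun (congrArg Subtype.val h) 0
  have h11 : phi (1 / 2) 0 = -1 := by
    rw [← ex_pi]
    simp only [phi]
    congr 1
    ring
  rw [h11] at h10
  norm_num at h10

lemma sol_univ : ¬ Dec (univ : Set Sol) := by
  rintro ⟨A, B, -, -, h3, h4, h5, h6, h7, h8, h9⟩
  refine sol_indec ⟨Subtype.val '' A, Subtype.val '' B, Subtype.coe_image_subset _ _,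
    Subtype.coe_image_subset _ _, fun h => h3 ?_, fun h => h4 ?_, h5.image continuous_subtype_val,
    h6.image _ continuous_subtype_val.continuousOn, h7.image continuous_subtype_val,
    h8.image _ continuous_subtype_val.continuousOn, by rw [← image_union, h9]; simp⟩
  · exact image_injective.2 Subtype.val_injective (by rw [h]; simp)
  · exact image_injective.2 Subtype.val_injective (by rw [h]; simp)

theorem not_lambda {X Y : Type} [TopologicalSpace X] [TopologicalSpace Y] [T2Space X] [T2Space Y]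
    [CompactSpace X] [CompactSpace Y] [ConnectedSpace X] [SecondCountableTopology X]
    [Nontrivial X] [Nonempty Y] (h : ¬ Dec (univ : Set X)) :
    ∃ p q : X × Y, ∀ K : Set (X × Y), IsCompact K → IsConnected K → p ∈ K → q ∈ K → ¬ HD K := by
  obtain ⟨p⟩ : Nonempty X := inferInstance
  obtain ⟨y⟩ : Nonempty Y := inferInstance
  obtain ⟨q, hq⟩ := exists_pair h p
  refine ⟨(p, y), (q, y), fun K h1 h2 h3 h4 h5 => h (dec_of_onto continuous_fst h1 h2 h5 ?_)⟩
  exact hq _ (h1.image continuous_fst).isClosed (h2.image _ continuous_fst.continuousOn)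
    ⟨_, h3, rfl⟩ ⟨_, h4, rfl⟩

end Pool.Agent.H.MP_3d59a4_gt
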